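import Pool.Agent.H93.RG.Mat

/-!
# FG for blocks of size `r`: counting (port of H3/Ac/Cnt)
-/

set_option autoImplicit false
set_option linter.unusedSectionVars false

namespace Pool.Agent.H90.RG

open Finset
open Pool.Agent.H93.RG

variable {V : Type} [Fintype V] [DecidableEq V] {r : ℕ}

theorem mem_Mtc {m : ℕ} {M : Finset (Finset V)} : M ∈ Mtc r V m ↔ IsM r M ∧ M.card = m := by
  simp only [Mtc, mem_filter, mem_univ, true_and]

theorem card_unc {m ℓ : ℕ} (h : r * m + ℓ = Fintype.card V) {M : Finset (Finset V)}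
    (hM : M ∈ Mtc r V m) : (univ \ cov M).card = ℓ := by
  obtain ⟨h1, h2⟩ := mem_Mtc.1 hM
  rw [card_univ_sdiff, card_cov h1, h2]
  omega

theorem card_Mtc_succ (m ℓ : ℕ) (h : r * m + ℓ = Fintype.card V) :
    (Mtc r V (m + 1)).card * (m + 1) ≤ (Mtc r V m).card * ℓ ^ r := by
  let S : Finset ((_ : Finset (Finset V)) × Finset V) := (Mtc r V (m + 1)).sigma fun M => M
  let T : Finset ((_ : Finset (Finset V)) × Finset V) :=
    (Mtc r V m).sigma fun M => powersetCard r (univ \ cov M)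
  have hS : S.card = (Mtc r V (m + 1)).card * (m + 1) := by
    rw [card_sigma, sum_congr rfl fun M hM => (mem_Mtc.1 hM).2, sum_const, smul_eq_mul]
  have hT : T.card ≤ (Mtc r V m).card * ℓ ^ r := by
    rw [card_sigma, ← smul_eq_mul, ← sum_const]
    refine sum_le_sum fun M hM => ?_
    rw [card_powersetCard, card_unc h hM]
    exact Nat.choose_le_pow _ _
  rw [← hS]
  refine le_trans ?_ hT
  refine card_le_card_of_injOn (fun p => ⟨p.1.erase p.2, p.2⟩) ?_ ?_
  · rintro ⟨M, e⟩ hp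
    rw [mem_coe, mem_sigma] at hp
    obtain ⟨hM, he⟩ := hp
    simp only at hM he
    obtain ⟨h1, h2⟩ := mem_Mtc.1 hM
    rw [mem_coe, mem_sigma]
    refine ⟨mem_Mtc.2 ⟨isM_sub h1 (erase_subset _ _), ?_⟩, ?_⟩
    · rw [card_erase_of_mem he, h2]
      rfl
    · refine mem_powersetCard.2 ⟨?_, h1.1 e he⟩
      intro v hv
      rw [mem_sdiff]
      refine ⟨mem_univ _, fun hc => ?_⟩
      obtain ⟨f, hf, hvf⟩ := mem_cov.1 hc
      rw [mem_erase] at hf
      exact hf.1 (h1.2 f hf.2 e he v hvf hv)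
  · rintro ⟨M, e⟩ hp ⟨M', e'⟩ hp' heq
    rw [mem_coe, mem_sigma] at hp hp'
    simp only [Sigma.mk.injEq] at heq
    obtain ⟨h1, h2⟩ := heq
    have h2' : e = e' := eq_of_heq h2
    subst h2'
    have ha : e ∈ M := hp.2
    have hb : e ∈ M' := hp'.2
    have h3 : M = M' := by
      rw [← insert_erase ha, ← insert_erase hb]
      exact congrArg (insert e) h1
    rw [h3]

theorem card_Mtc_add (hr : 1 ≤ r) (m ℓ : ℕ) (h : r * m + ℓ = Fintype.card V) (j : ℕ) :
    ((Mtc r V (m + j)).card : ℝ) ≤ (Mtc r V m).card * ((ℓ : ℝ) ^ r / (m + 1)) ^ j := by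
  induction j with
  | zero => simp
  | succ j ih =>
    have h0 : (0 : ℝ) ≤ (ℓ : ℝ) ^ r / (m + 1) := by positivity
    have hrj : r * (m + j) = r * m + r * j := Nat.mul_add _ _ _
    by_cases hc : r * (m + j) ≤ Fintype.card V
    · have h1 := card_Mtc_succ (V := V) (r := r) (m + j) (ℓ - r * j) (by omega)
      have h2 : ((Mtc r V (m + j + 1)).card : ℝ) * (m + 1) ≤
          (Mtc r V (m + j)).card * (ℓ : ℝ) ^ r := by
        have h3 : (Mtc r V (m + j + 1)).card * (m + 1) ≤ (Mtc r V (m + j)).card * ℓ ^ r := by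
          calc (Mtc r V (m + j + 1)).card * (m + 1) ≤ (Mtc r V (m + j + 1)).card * (m + j + 1) :=
                Nat.mul_le_mul_left _ (by omega)
            _ ≤ (Mtc r V (m + j)).card * (ℓ - r * j) ^ r := h1
            _ ≤ (Mtc r V (m + j)).card * ℓ ^ r :=
                Nat.mul_le_mul_left _ (Nat.pow_le_pow_left (Nat.sub_le _ _) r)
        exact_mod_cast h3
      have hm : (0 : ℝ) < (m : ℝ) + 1 := by positivity
      calc ((Mtc r V (m + (j + 1))).card : ℝ) ≤ (Mtc r V (m + j)).card * (ℓ : ℝ) ^ r / (m + 1) := by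
            rw [le_div_iff₀ hm]
            exact h2
        _ = (Mtc r V (m + j)).card * ((ℓ : ℝ) ^ r / (m + 1)) := by rw [mul_div_assoc]
        _ ≤ ((Mtc r V m).card * ((ℓ : ℝ) ^ r / (m + 1)) ^ j) * ((ℓ : ℝ) ^ r / (m + 1)) :=
            mul_le_mul_of_nonneg_right ih h0
        _ = (Mtc r V m).card * ((ℓ : ℝ) ^ r / (m + 1)) ^ (j + 1) := by ring
    · have h1 : Mtc r V (m + (j + 1)) = ∅ := by
        rw [eq_empty_iff_forall_notMem]
        intro M hM
        obtain ⟨h2, h3⟩ := mem_Mtc.1 hM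
        have h4 := card_cov h2
        have h5 : (cov M).card ≤ Fintype.card V := card_le_univ _
        rw [h4, h3, show m + (j + 1) = (m + j) + 1 from rfl, Nat.mul_add, Nat.mul_one] at h5
        omega
      rw [h1, card_empty, Nat.cast_zero]
      positivity

theorem Mtc_nonempty (hr : 1 ≤ r) (m : ℕ) (h : r * m ≤ Fintype.card V) : (Mtc r V m).Nonempty := by
  induction m with
  | zero => exact ⟨∅, mem_Mtc.2 ⟨isM_empty, card_empty⟩⟩
  | succ m ih =>
    rw [Nat.mul_add, Nat.mul_one] at h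
    obtain ⟨M, hM⟩ := ih (by omega)
    have h1 : r * m + (Fintype.card V - r * m) = Fintype.card V := by omega
    have h2 := card_unc h1 hM
    obtain ⟨h3, h4⟩ := mem_Mtc.1 hM
    have h5 : r ≤ (univ \ cov M).card := by omega
    obtain ⟨e, he1, he2⟩ := exists_subset_card_eq h5
    have h6 : Disjoint e (cov M) := disjoint_left.2 fun v hv hv' => (mem_sdiff.1 (he1 hv)).2 hv'
    obtain ⟨h7, -, h8⟩ := isM_insert hr h3 he2 h6
    exact ⟨_, mem_Mtc.2 ⟨h7, by rw [h8, h4]⟩⟩

end Pool.Agent.H90.RG
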